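import Mathlib

set_option autoImplicit false

open Filter Topology

namespace Pool.Agent.Results.MP_8b0535_co.NoAdmissible

universe u

/-- The range `1 ≪ b₂ ≪ √m`: `b₂` is a positive function of `m ≥ 1`, `b₂(m) → ∞` and
`b₂(m) / √m → 0` as `m → ∞`. -/
structure InRange (b₂ : ℕ → ℝ) : Prop where
  pos : ∀ m : ℕ, 1 ≤ m → 0 < b₂ m
  tendsto_atTop : Tendsto b₂ atTop atTop
  tendsto_div_sqrt : Tendsto (fun m : ℕ => b₂ m / Real.sqrt (m : ℝ)) atTop (𝓝 0)

/-- A sequence of finite simple graphs `G m` on vertex sets `V m` with two distinguished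
vertex sets `A m`, `B m` is *admissible for `b₂`* if, for all sufficiently large `m`, the graph
`G m` is bipartite with parts `A m` and `B m`, `|A m| = m` and any three distinct vertices
of `A m` have exactly one common neighbour, and if moreover, uniformly as `m → ∞`, all
vertices of `A m` have degree `(1+o(1)) m` and all pairs of distinct vertices of `A m` have
`(1+o(1)) b₂(m)` common neighbours. -/
structure Admissible (b₂ : ℕ → ℝ) (V : ℕ → Type u) (G : ∀ m, SimpleGraph (V m))
    (A B : ∀ m, Set (V m)) : Prop where
  bipartite : ∀ᶠ m in atTop, (G m).IsBipartiteWith (A m) (B m) ∧ A m ∪ B m = Set.univ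
  card_A : ∀ᶠ m in atTop, (A m).ncard = m
  degree : ∀ ε : ℝ, 0 < ε → ∀ᶠ m in atTop, ∀ x ∈ A m,
    |(((G m).neighborSet x).ncard : ℝ) / (m : ℝ) - 1| ≤ ε
  pairs : ∀ ε : ℝ, 0 < ε → ∀ᶠ m in atTop, ∀ x ∈ A m, ∀ y ∈ A m, x ≠ y →
    |(((G m).neighborSet x ∩ (G m).neighborSet y).ncard : ℝ) / b₂ m - 1| ≤ ε
  triples : ∀ᶠ m in atTop, ∀ x ∈ A m, ∀ y ∈ A m, ∀ z ∈ A m, x ≠ y → x ≠ z → y ≠ z →
    ((G m).neighborSet x ∩ (G m).neighborSet y ∩ (G m).neighborSet z).ncard = 1

/-- Finite counting lemma. `r u b` means that the block `b` contains the point `u`. If any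
three points lie in exactly one block, any two points lie in at least `Q` and at most `P` blocks,
and every point lies in at most `D` blocks, then `m - 2 ≤ P (P - 1)` or
`(Q - 1) (m - 1) + 1 ≤ D`. -/
lemma key {α β : Type*} [Fintype α] [Fintype β] [DecidableEq α] [DecidableEq β]
    (r : α → β → Prop) [∀ a b, Decidable (r a b)] (m P : ℕ) (Q D : ℝ)
    (hm : Fintype.card α = m) (hm3 : 3 ≤ m)
    (hU : ∀ x y : α, x ≠ y → (Finset.univ.filter (fun b => r x b ∧ r y b)).card ≤ P)
    (hL : ∀ x y : α, x ≠ y → Q ≤ ((Finset.univ.filter (fun b => r x b ∧ r y b)).card : ℝ))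
    (hD : ∀ x : α, ((Finset.univ.filter (fun b => r x b)).card : ℝ) ≤ D)
    (hT : ∀ x y z : α, x ≠ y → x ≠ z → y ≠ z → ∃! b, r x b ∧ r y b ∧ r z b) :
    ((m : ℝ) - 2 ≤ P * (P - 1)) ∨ ((Q - 1) * ((m : ℝ) - 1) + 1 ≤ D) := by
  classical
  by_cases hfull : ∃ b₀ : β, ∀ x, r x b₀
  · right
    obtain ⟨b₀, hb₀⟩ := hfull
    have hpos : 0 < Fintype.card α := by omega
    obtain ⟨x⟩ := Fintype.card_pos_iff.mp hpos
    -- blocks through x contain b₀ and disjoint families of blocks through x and y
    have hsub : ({b₀} : Finset β) ∪ (Finset.univ.erase x).biUnion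
        (fun y => (Finset.univ.filter (fun b => r x b ∧ r y b)).erase b₀) ⊆
        Finset.univ.filter (fun b => r x b) := by
      intro b hb
      simp only [Finset.mem_union, Finset.mem_singleton, Finset.mem_biUnion, Finset.mem_erase,
        Finset.mem_filter, Finset.mem_univ, true_and, and_true] at hb ⊢
      rcases hb with rfl | ⟨y, -, -, h, -⟩
      · exact hb₀ x
      · exact h
    have hcard := Finset.card_le_card hsub
    rw [Finset.card_union_of_disjoint, Finset.card_biUnion] at hcard
    · have h1 : (((Finset.univ.erase x).sum fun y =>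
          ((Finset.univ.filter (fun b => r x b ∧ r y b)).erase b₀).card : ℕ) : ℝ) ≥
          (Q - 1) * ((m : ℝ) - 1) := by
        rw [Nat.cast_sum]
        have h2 : ∀ y ∈ (Finset.univ.erase x : Finset α),
            (Q - 1) ≤ ((((Finset.univ.filter (fun b => r x b ∧ r y b)).erase b₀).card : ℕ) : ℝ) := by
          intro y hy
          have hne : x ≠ y := by
            rintro rfl
            simp at hy
          rw [Finset.card_erase_of_mem (by simp [hb₀])]
          have h3 := hL x y hne
          have h4 : 1 ≤ (Finset.univ.filter (fun b => r x b ∧ r y b)).card :=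
            Finset.card_pos.mpr ⟨b₀, by simp [hb₀]⟩
          rw [Nat.cast_sub h4]
          simpa using h3
        have h5 := Finset.card_nsmul_le_sum _ _ _ h2
        rw [Finset.card_erase_of_mem (Finset.mem_univ x), Finset.card_univ, hm, nsmul_eq_mul,
          Nat.cast_sub (by omega)] at h5
        push_cast at h5
        linarith [h5]
      have h6 := hD x
      have h7 : ((({b₀} : Finset β).card + ((Finset.univ.erase x).sum fun y =>
          ((Finset.univ.filter (fun b => r x b ∧ r y b)).erase b₀).card) : ℕ) : ℝ) ≤
          ((Finset.univ.filter (fun b => r x b)).card : ℝ) := by exact_mod_cast hcard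
      rw [Nat.cast_add, Finset.card_singleton] at h7
      push_cast at h7 h1
      linarith
    · intro y hy z hz hyz
      rw [Function.onFun, Finset.disjoint_left]
      intro b hb hb'
      simp only [Finset.mem_erase, Finset.mem_filter, Finset.mem_univ, true_and] at hb hb'
      have hxy : x ≠ y := by
        rintro rfl
        simp at hy
      have hxz : x ≠ z := by
        rintro rfl
        simp at hz
      exact hb.1 ((hT x y z hxy hxz hyz).unique ⟨hb.2.1, hb.2.2, hb'.2.2⟩ ⟨hb₀ x, hb₀ y, hb₀ z⟩)
    · rw [Finset.disjoint_left]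
      intro b hb hb'
      simp only [Finset.mem_singleton] at hb
      simp only [Finset.mem_biUnion, Finset.mem_erase] at hb'
      obtain ⟨y, -, h, -⟩ := hb'
      exact h hb
  · left
    push Not at hfull
    -- every block has at most P + 1 points
    have hblock : ∀ b : β, (Finset.univ.filter (fun x => r x b)).card ≤ P + 1 := by
      intro b
      obtain ⟨w, hw⟩ := hfull b
      rcases (Finset.univ.filter (fun x => r x b)).eq_empty_or_nonempty with he | ⟨x, hx⟩
      · simp [he]
      · simp only [Finset.mem_filter, Finset.mem_univ, true_and] at hx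
        have hxw : x ≠ w := by
          rintro rfl
          exact hw hx
        have hch : ∀ y, y ∈ (Finset.univ.filter (fun x => r x b)).erase x →
            ∃ c, r x c ∧ r w c ∧ r y c := by
          intro y hy
          simp only [Finset.mem_erase, Finset.mem_filter, Finset.mem_univ, true_and] at hy
          have hwy : w ≠ y := by
            rintro rfl
            exact hw hy.2
          exact (hT x w y hxw (Ne.symm hy.1) hwy).exists
        have : Nonempty β := ⟨b⟩
        choose! f hf using hch
        have hle : ((Finset.univ.filter (fun x => r x b)).erase x).card ≤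
            (Finset.univ.filter (fun b => r x b ∧ r w b)).card := by
          apply Finset.card_le_card_of_injOn f
          · intro y hy
            have := hf y hy
            simp only [Finset.coe_filter, Finset.mem_univ, true_and, Set.mem_ofPred_eq]
            exact ⟨this.1, this.2.1⟩
          · intro y hy z hz hyz
            by_contra hne
            have hfy := hf y hy
            have hfz := hf z hz
            rw [← hyz] at hfz
            simp only [Finset.coe_erase, Finset.coe_filter, Finset.mem_univ, true_and,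
              Set.mem_sdiff, Set.mem_ofPred_eq, Set.mem_singleton_iff] at hy hz
            have := (hT x y z (Ne.symm hy.2) (Ne.symm hz.2) hne).unique
              ⟨hx, hy.1, hz.1⟩ ⟨hfy.1, hfy.2.2, hfz.2.2⟩
            rw [this] at hw
            exact hw hfy.2.1
        rw [Finset.card_erase_of_mem (by simpa using hx)] at hle
        have := hU x w hxw
        omega
    -- pick two points
    have hcard2 : 1 < Fintype.card α := by omega
    obtain ⟨x, y, hxy⟩ := Fintype.one_lt_card_iff.mp hcard2
    have hcover : ((Finset.univ.erase x).erase y : Finset α) ⊆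
        (Finset.univ.filter (fun b => r x b ∧ r y b)).biUnion
          (fun b => ((Finset.univ.filter (fun z => r z b)).erase x).erase y) := by
      intro z hz
      simp only [Finset.mem_erase, Finset.mem_univ, and_true] at hz
      obtain ⟨b, hb⟩ := (hT x y z hxy (Ne.symm hz.2) (Ne.symm hz.1)).exists
      simp only [Finset.mem_biUnion, Finset.mem_filter, Finset.mem_univ, true_and,
        Finset.mem_erase]
      exact ⟨b, ⟨hb.1, hb.2.1⟩, hz.1, hz.2, hb.2.2⟩
    have h1 : ((Finset.univ.erase x).erase y : Finset α).card = m - 2 := by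
      rw [Finset.card_erase_of_mem (by simp [Ne.symm hxy]),
        Finset.card_erase_of_mem (Finset.mem_univ x), Finset.card_univ, hm]
      omega
    have h2 : ∀ b ∈ Finset.univ.filter (fun b => r x b ∧ r y b),
        (((Finset.univ.filter (fun z => r z b)).erase x).erase y).card ≤ P - 1 := by
      intro b hb
      simp only [Finset.mem_filter, Finset.mem_univ, true_and] at hb
      rw [Finset.card_erase_of_mem (by simp [Ne.symm hxy, hb.2]),
        Finset.card_erase_of_mem (by simp [hb.1])]
      have := hblock b
      omega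
    have h3 : m - 2 ≤ P * (P - 1) := by
      calc m - 2 = ((Finset.univ.erase x).erase y : Finset α).card := h1.symm
        _ ≤ _ := Finset.card_le_card hcover
        _ ≤ _ := Finset.card_biUnion_le_card_mul _ _ _ h2
        _ ≤ P * (P - 1) := Nat.mul_le_mul_right _ (hU x y hxy)
    have hP : 1 ≤ P := by
      rcases Nat.eq_zero_or_pos P with h | h
      · subst h
        simp at h3
        omega
      · exact h
    have h4 : ((m - 2 : ℕ) : ℝ) ≤ ((P * (P - 1) : ℕ) : ℝ) := by exact_mod_cast h3
    rw [Nat.cast_sub (by omega), Nat.cast_mul, Nat.cast_sub hP] at h4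
    push_cast at h4
    exact h4

/-- **Q1 is false, for every function in the range.** The range `1 ≪ b₂ ≪ √m` is nonempty, and
for no function `b₂` in it is there an admissible sequence of finite bipartite graphs. -/
theorem result :
    (∃ b₂ : ℕ → ℝ, InRange b₂) ∧
    ∀ b₂ : ℕ → ℝ, InRange b₂ →
      ¬ ∃ (V : ℕ → Type u) (_ : ∀ m, Finite (V m)) (G : ∀ m, SimpleGraph (V m))
          (A B : ∀ m, Set (V m)), Admissible b₂ V G A B := by
  constructor
  · refine ⟨fun m => (m : ℝ) ^ (1 / 4 : ℝ), ?_, ?_, ?_⟩
    · intro m hm
      have : (0 : ℝ) < m := by exact_mod_cast hm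
      positivity
    · exact (tendsto_rpow_atTop (by norm_num)).comp tendsto_natCast_atTop_atTop
    · have h : Tendsto (fun x : ℝ => x ^ (-(1 / 4) : ℝ)) atTop (𝓝 0) :=
        tendsto_rpow_neg_atTop (by norm_num)
      have h' := h.comp tendsto_natCast_atTop_atTop
      refine h'.congr' ?_
      filter_upwards [eventually_gt_atTop 0] with m hm
      have hm' : (0 : ℝ) < m := by exact_mod_cast hm
      simp only [Function.comp]
      rw [Real.sqrt_eq_rpow, ← Real.rpow_sub hm']
      norm_num
  · rintro b₂ hb ⟨V, hV, G, A, B, hadm⟩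
    have e1 := hadm.card_A
    have e2 := hadm.degree 1 one_pos
    have e3 := hadm.pairs (1 / 2) (by norm_num)
    have e4 := hadm.triples
    have e5 : ∀ᶠ m in atTop, (10 : ℝ) ≤ b₂ m := hb.tendsto_atTop.eventually_ge_atTop 10
    have e6 : ∀ᶠ m : ℕ in atTop, b₂ m / Real.sqrt (m : ℝ) ≤ 1 / 4 :=
      (hb.tendsto_div_sqrt.eventually (ge_mem_nhds (by norm_num : (0 : ℝ) < 1 / 4)))
    obtain ⟨m, h1, h2, h3, h4, h5, h6, hm3⟩ :=
      (e1.and (e2.and (e3.and (e4.and (e5.and (e6.and (eventually_ge_atTop 3))))))).exists
    classical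
    have := hV m
    have : Fintype (V m) := Fintype.ofFinite _
    have : Fintype (A m) := Fintype.ofFinite _
    have hmpos : (0 : ℝ) < m := by
      have : 0 < m := by omega
      exact_mod_cast this
    have hsqrt : 0 < Real.sqrt (m : ℝ) := Real.sqrt_pos.mpr hmpos
    have hbpos : 0 < b₂ m := by linarith
    have h6' : b₂ m ≤ Real.sqrt m / 4 := by
      rw [div_le_iff₀ hsqrt] at h6
      linarith
    have hcardpair : ∀ x y : A m,
        ((Finset.univ.filter (fun b => (G m).Adj x b ∧ (G m).Adj y b)).card) =
        ((G m).neighborSet x ∩ (G m).neighborSet y).ncard := by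
      intro x y
      rw [← Set.ncard_coe_finset]
      congr 1
      ext b
      simp [SimpleGraph.mem_neighborSet]
    have hcarddeg : ∀ x : A m,
        ((Finset.univ.filter (fun b => (G m).Adj x b)).card) =
        ((G m).neighborSet x).ncard := by
      intro x
      rw [← Set.ncard_coe_finset]
      congr 1
      ext b
      simp [SimpleGraph.mem_neighborSet]
    have hpairbd : ∀ x y : A m, x ≠ y →
        b₂ m / 2 ≤ (((G m).neighborSet x ∩ (G m).neighborSet y).ncard : ℝ) ∧
        (((G m).neighborSet x ∩ (G m).neighborSet y).ncard : ℝ) ≤ 2 * b₂ m := by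
      intro x y hxy
      have hne : (x : V m) ≠ y := fun h => hxy (Subtype.ext h)
      have h := h3 x x.2 y y.2 hne
      rw [abs_le] at h
      obtain ⟨ha, hb'⟩ := h
      constructor
      · have : 1 / 2 ≤ (((G m).neighborSet x ∩ (G m).neighborSet y).ncard : ℝ) / b₂ m := by
          linarith
        rw [le_div_iff₀ hbpos] at this
        linarith
      · have : (((G m).neighborSet x ∩ (G m).neighborSet y).ncard : ℝ) / b₂ m ≤ 2 := by
          linarith
        rw [div_le_iff₀ hbpos] at this
        linarith
    have hkey := key (α := A m) (β := V m) (fun x b => (G m).Adj x b) m ⌊2 * b₂ m⌋₊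
      (b₂ m / 2) (2 * m)
      (by
        rw [Set.ncard_eq_toFinset_card', Set.toFinset_card] at h1
        exact h1) hm3
      (by
        intro x y hxy
        rw [hcardpair]
        exact Nat.le_floor (hpairbd x y hxy).2)
      (by
        intro x y hxy
        rw [hcardpair]
        exact (hpairbd x y hxy).1)
      (by
        intro x
        rw [hcarddeg]
        have h := h2 x x.2
        rw [abs_le] at h
        have h' : (((G m).neighborSet x).ncard : ℝ) / m ≤ 2 := by linarith [h.2]
        rw [div_le_iff₀ hmpos] at h'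
        exact h')
      (by
        intro x y z hxy hxz hyz
        have h := h4 x x.2 y y.2 z z.2 (fun h => hxy (Subtype.ext h))
          (fun h => hxz (Subtype.ext h)) (fun h => hyz (Subtype.ext h))
        rw [Set.ncard_eq_one] at h
        obtain ⟨b, hb'⟩ := h
        refine ⟨b, ?_, ?_⟩
        · have : b ∈ (G m).neighborSet x ∩ (G m).neighborSet y ∩ (G m).neighborSet z := by
            rw [hb']
            exact Set.mem_singleton b
          exact ⟨this.1.1, this.1.2, this.2⟩
        · rintro c ⟨hc1, hc2, hc3⟩
          have : c ∈ (G m).neighborSet x ∩ (G m).neighborSet y ∩ (G m).neighborSet z :=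
            ⟨⟨hc1, hc2⟩, hc3⟩
          rw [hb'] at this
          exact this)
    rcases hkey with hk | hk
    · have hfl : (⌊2 * b₂ m⌋₊ : ℝ) ≤ 2 * b₂ m := Nat.floor_le (by linarith)
      have hfl0 : (0 : ℝ) ≤ (⌊2 * b₂ m⌋₊ : ℝ) := Nat.cast_nonneg _
      have hm3' : (3 : ℝ) ≤ m := by exact_mod_cast hm3
      have hsq : Real.sqrt (m : ℝ) * Real.sqrt m = m := Real.mul_self_sqrt hmpos.le
      have ha : (⌊2 * b₂ m⌋₊ : ℝ) ≤ Real.sqrt m / 2 := by linarith
      have hb2 : (⌊2 * b₂ m⌋₊ : ℝ) * (⌊2 * b₂ m⌋₊ - 1) ≤
          (Real.sqrt m / 2) * (Real.sqrt m / 2) := by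
        nlinarith
      nlinarith
    · have hm3' : (3 : ℝ) ≤ m := by exact_mod_cast hm3
      nlinarith

end Pool.Agent.Results.MP_8b0535_co.NoAdmissible
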